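import Pool.Agent.Helper28.HPMain

set_option autoImplicit false

namespace Pool.Agent.Results.MP_780082_co.SpiralAttains

open UpperHalfPlane Pool.Agent.Helper28.HPDefs

/-- For every `k ≥ 7` and `n ≥ 1` there are `n` points of the hyperbolic plane with pairwise
distances at least `d(k)` and at least `⌊U_{d(k)}(n)⌋` pairs at distance exactly `d(k)`; hence
`e_{d(k)}(n) ≥ ⌊U_{d(k)}(n)⌋`.  Here `d(k)` is the positive number `d` with
`cos (2π/k) = tanh (d/2) / tanh d`, which exists. -/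
theorem result : ∀ k : ℕ, 7 ≤ k →
    (∃ d : ℝ, 0 < d ∧ Real.cos (2 * Real.pi / k) = Real.tanh (d / 2) / Real.tanh d) ∧
    ∀ d : ℝ, 0 < d → Real.cos (2 * Real.pi / k) = Real.tanh (d / 2) / Real.tanh d →
      ∀ n : ℕ, 1 ≤ n →
        (∃ p : Fin n → ℍ, IsPacking d p ∧ ⌊U (2 * Real.pi / k) n⌋ ≤ (touching d p : ℤ)) ∧
        ⌊U (2 * Real.pi / k) n⌋ ≤ (maxTouching d n : ℤ) := by
  intro k hk
  refine ⟨Pool.Agent.Helper28.HP.exists_d hk, ?_⟩
  intro d hd hcond n hn
  have h := (Pool.Agent.Helper28.HP.cond_iff hd _).mp hcond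
  have h1 := Pool.Agent.Helper28.HP.floor_U_le hk hd h hn
  have h2 := Pool.Agent.Helper28.HP.packing hk hd h n
  refine ⟨⟨_, h2, h1⟩, h1.trans ?_⟩
  exact_mod_cast Pool.Agent.Helper28.HP.le_maxTouching _ h2

end Pool.Agent.Results.MP_780082_co.SpiralAttains
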